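import Mathlib
import Pool.Agent.R710.QM.Stable

/-!
# MP_e38963_al: an amalgam of operator norm stable groups over an infinite central subgroup
that is not operator norm stable
-/

set_option autoImplicit false

namespace Pool.Agent.Results.MP_e38963_al.NotStable

open Pool.Agent.R710.QM

theorem powHom_injective {m : ℕ} (hm : m ≠ 0) : Function.Injective (powHom m) := by
  intro a b hab
  have h : Multiplicative.toAdd (a ^ m) = Multiplicative.toAdd (b ^ m) :=
    congrArg Multiplicative.toAdd hab
  rw [toAdd_pow, toAdd_pow, nsmul_eq_mul, nsmul_eq_mul] at h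
  have h2 : (m : ℤ) ≠ 0 := by exact_mod_cast hm
  exact Multiplicative.toAdd.injective (mul_left_cancel₀ h2 h)

/-- There are countable operator norm stable groups `G₁`, `G₂` and an infinite group `H` embedded
centrally in both such that the amalgamated free product is not operator norm stable.
In fact one can take `G₁ = G₂ = H = ℤ` with the embeddings `h ↦ 4h` and `h ↦ 3h`: the group
`⟨x, y | x⁴ = y³⟩` is not operator norm stable. -/
theorem result :
    (∃ (G₁ G₂ H : Type) (_ : Group G₁) (_ : Group G₂) (_ : Group H) (i : H →* G₁) (j : H →* G₂),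
      Countable G₁ ∧ Countable G₂ ∧ Infinite H ∧
      Function.Injective i ∧ Function.Injective j ∧
      (∀ h, i h ∈ Subgroup.center G₁) ∧ (∀ h, j h ∈ Subgroup.center G₂) ∧
      OpStable G₁ ∧ OpStable G₂ ∧ ¬ OpStable (Amalg i j)) ∧
    ¬ OpStable (Amalg (powHom 4) (powHom 3)) := by
  refine ⟨⟨Multiplicative ℤ, Multiplicative ℤ, Multiplicative ℤ, inferInstance, inferInstance,
    inferInstance, powHom 4, powHom 3, inferInstance, inferInstance, inferInstance,
    powHom_injective (by norm_num), powHom_injective (by norm_num), fun h => ?_, fun h => ?_,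
    opStable_int, opStable_int, not_opStable⟩, not_opStable⟩
  · rw [CommGroup.center_eq_top]; trivial
  · rw [CommGroup.center_eq_top]; trivial

end Pool.Agent.Results.MP_e38963_al.NotStable
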